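import Pool.Agent.N299.DT.Stm2

/-!
Project ND (MP_46b579_an, MP_0b2f97_an): separable nowhere scattered C*-algebras of finite nuclear
dimension are `𝒵`-stable.  Definitions and statements of the tasks.

Setting: `B` a unital C*-algebra, `I` a closed two-sided ideal of `B` (the algebra under study).
-/

set_option autoImplicit false

open scoped BoundedContinuousFunction Topology Matrix.Norms.L2Operator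
open Filter

noncomputable section

namespace Pool.Agent.N299.ND

open Pool.Agent.N299 Pool.Agent.N299.DT

/-- matrices of size `n + 1` -/
abbrev M (n : ℕ) : Type := Matrix (Fin (n + 1)) (Fin (n + 1)) ℂ

/-- matrix units -/
def mu {n : ℕ} (i j : Fin (n + 1)) : M n := Matrix.single i j 1

/-- closed two-sided ideals -/
structure Idl {B : Type} [CStarAlgebra B] (I : Submodule ℂ B) : Prop where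
  closed : IsClosed (I : Set B)
  mulL : ∀ x ∈ I, ∀ y, y * x ∈ I
  mulR : ∀ x ∈ I, ∀ y, x * y ∈ I
  star : ∀ x ∈ I, star x ∈ I

/-- `T` is completely positive on `I` -/
def CPI {B R : Type} [CStarAlgebra B] [CStarAlgebra R] (I : Submodule ℂ B) (T : B →ₗ[ℂ] R) : Prop :=
  ∀ (r : ℕ) (a : Fin r → B) (b : Fin r → R), (∀ i, a i ∈ I) →
    Pos (∑ i, ∑ j, star (b i) * T (star (a i) * a j) * b j)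

/-- structure of completely positive contractive order zero maps -/
structure OZ {R B : Type} [CStarAlgebra R] [CStarAlgebra B] (φ : R →ₗ[ℂ] B) : Prop where
  st : ∀ x, φ (star x) = star (φ x)
  mul : ∀ x y, φ x * φ y = φ 1 * φ (x * y)
  comm : ∀ x, φ 1 * φ x = φ x * φ 1
  pos : ∀ x, Pos x → Pos (φ x)
  le : Pos (1 - φ 1)
  norm : ∀ x, ‖φ x‖ ≤ ‖x‖

/-- one block of a nuclear approximation of `I` -/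
structure Blk {B : Type} [CStarAlgebra B] (I : Submodule ℂ B) {n : ℕ} (ψ : B →ₗ[ℂ] M n)
    (φ : M n →ₗ[ℂ] B) : Prop where
  ψcp : CPI I ψ
  ψn : ∀ a ∈ I, ‖ψ a‖ ≤ ‖a‖
  φcp : ∀ (r : ℕ) (a : Fin r → M n) (b : Fin r → B),
    Pos (∑ i, ∑ j, star (b i) * φ (star (a i) * a j) * b j)
  φn : ∀ x, ‖φ x‖ ≤ ‖x‖
  oz : ∀ x y, Pos x → Pos y → x * y = 0 → φ x * φ y = 0
  mem : ∀ x, φ x ∈ I

/-- finite family of blocks with colours in `Fin (m + 1)` -/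
structure Fam {B : Type} [CStarAlgebra B] (I : Submodule ℂ B) (m k : ℕ) (n : Fin k → ℕ)
    (c : Fin k → Fin (m + 1)) (ψ : ∀ j, B →ₗ[ℂ] M (n j)) (φ : ∀ j, M (n j) →ₗ[ℂ] B) : Prop where
  blk : ∀ j, Blk I (ψ j) (φ j)
  orth : ∀ j j', j ≠ j' → c j = c j' → ∀ x y, φ j x * φ j' y = 0

/-- the map `∑_{j ∈ S} φ_j ψ_j` -/
def tot {B : Type} [CStarAlgebra B] {k : ℕ} {n : Fin k → ℕ} (ψ : ∀ j, B →ₗ[ℂ] M (n j))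
    (φ : ∀ j, M (n j) →ₗ[ℂ] B) (S : Finset (Fin k)) : B →ₗ[ℂ] B := ∑ j ∈ S, φ j ∘ₗ ψ j

/-- `I` has nuclear dimension at most `m` -/
def NucI {B : Type} [CStarAlgebra B] (m : ℕ) (I : Submodule ℂ B) : Prop :=
  ∀ (F : Finset B) (ε : ℝ), (∀ a ∈ F, a ∈ I) → 0 < ε →
  ∃ (k : ℕ) (n : Fin k → ℕ) (c : Fin k → Fin (m + 1)) (ψ : ∀ j, B →ₗ[ℂ] M (n j))
    (φ : ∀ j, M (n j) →ₗ[ℂ] B), Fam I m k n c ψ φ ∧ ∀ a ∈ F, ‖tot ψ φ Finset.univ a - a‖ ≤ ε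

/-- `I` is nowhere scattered: no quotient `I / J` has a non-zero minimal projection -/
def NSI {B : Type} [CStarAlgebra B] (I : Submodule ℂ B) : Prop :=
  ∀ (J : Submodule ℂ B) (e : B), Idl J → J ≤ I → e ∈ I → star e - e ∈ J → e * e - e ∈ J →
    (∀ x ∈ I, ∃ c : ℂ, e * x * e - c • e ∈ J) → e ∈ J

/-! ### order zero maps -/

def S_OZL : Prop := ∀ (n : ℕ) (B : Type) [CStarAlgebra B] (φ : M n →ₗ[ℂ] B),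
  (∀ (r : ℕ) (a : Fin r → M n) (b : Fin r → B),
    Pos (∑ i, ∑ j, star (b i) * φ (star (a i) * a j) * b j)) →
  (∀ x, ‖φ x‖ ≤ ‖x‖) → (∀ x y, Pos x → Pos y → x * y = 0 → φ x * φ y = 0) → OZ φ

/-- sum of orthogonal order zero maps, on the product algebra -/
def mrg {B : Type} [CStarAlgebra B] {k : ℕ} {n : Fin k → ℕ} (φ : ∀ j, M (n j) →ₗ[ℂ] B)
    (S : Finset (Fin k)) : (∀ j : S, M (n j)) →ₗ[ℂ] B :=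
  ∑ j : S, φ j ∘ₗ LinearMap.proj j

def S_OZS : Prop := ∀ (k : ℕ) (n : Fin k → ℕ) (B : Type) [CStarAlgebra B]
  (φ : ∀ j, M (n j) →ₗ[ℂ] B) (S : Finset (Fin k)), (∀ j ∈ S, OZ (φ j)) →
  (∀ j ∈ S, ∀ j' ∈ S, j ≠ j' → ∀ x y, φ j x * φ j' y = 0) → OZ (mrg φ S)

def S_DL : Prop := ∀ (R B : Type) [CStarAlgebra R] [CStarAlgebra B] (φ : R →ₗ[ℂ] B), OZ φ →
  (∀ (D : B) (x : R), ‖D * φ x‖ ≤ ‖x‖ * ‖D * φ 1‖ ∧ ‖φ x * D‖ ≤ ‖x‖ * ‖φ 1 * D‖) ∧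
  (∀ x y, Pos (y - x) → Pos (φ y - φ x)) ∧
  (∀ (ε : ℝ) (x z y : R), 0 < ε → ‖x‖ ≤ 1 → ‖z‖ ≤ 1 → ‖y‖ ≤ 1 → ∃ z' y' : B,
    ‖z'‖ ≤ 1 ∧ ‖y'‖ ≤ 1 ∧ z' = Ring.inverse (φ 1 + (ε : ℂ) • 1) * φ z ∧
    z' = φ z * Ring.inverse (φ 1 + (ε : ℂ) • 1) ∧ y' = Ring.inverse (φ 1 + (ε : ℂ) • 1) * φ y ∧
    (z * z = 0 → z' * z' = 0) ∧ ‖φ x * z' * y' - φ (x * z * y)‖ ≤ 2 * ε ∧
    ‖Ring.inverse (φ 1 + (ε : ℂ) • 1)‖ ≤ ε⁻¹)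

def S_NB : Prop := ∀ (n : ℕ) (B : Type) [CStarAlgebra B] (φ : M n →ₗ[ℂ] B), OZ φ →
  ∀ x, ‖x‖ * ‖φ 1‖ ^ 4 ≤ ‖φ 1 * φ x‖

/-! ### approximations -/

def S_CPC : Prop := ∀ (B : Type) [CStarAlgebra B] (I : Submodule ℂ B) (n : ℕ)
  (ψ : B →ₗ[ℂ] M n) (φ : M n →ₗ[ℂ] B), Blk I ψ φ → CPI I (φ ∘ₗ ψ)

def S_TI : Prop := ∀ (B : Type) [CStarAlgebra B] (I : Submodule ℂ B), Idl I →
  ∀ T T' : B →ₗ[ℂ] B, CPI I T → CPI I T' → (∀ a ∈ I, ‖T a‖ ≤ ‖a‖) →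
  ∀ (C δ : ℝ) (e x : B), 0 < δ → δ ≤ 1 → e ∈ I → Pos e → Pos (1 - e) → x ∈ I → ‖x‖ ≤ C →
  ‖e * x - x‖ ≤ δ → ‖x * e - x‖ ≤ δ →
  (∀ y ∈ ({e * e, e * x, star x * e, star x * x, x * e, e * star x, x * star x} : Set B),
    ‖T y + T' y - y‖ ≤ δ) →
  ‖T x - T (e * e) * x‖ ≤ 3 * (1 + C) * Real.sqrt δ ∧
  ‖T x - x * T (e * e)‖ ≤ 3 * (1 + C) * Real.sqrt δ

def S_AOZ : Prop := ∀ (B : Type) [CStarAlgebra B] (I : Submodule ℂ B), Idl I → ∀ (n : ℕ)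
  (ψ : B →ₗ[ℂ] M n) (φ : M n →ₗ[ℂ] B), Blk I ψ φ → OZ φ →
  ∀ (δ : ℝ) (e x y : B), e ∈ I → x ∈ I → y ∈ I → ‖e‖ ≤ 1 →
  ‖φ (ψ x) - φ (ψ (e * e)) * x‖ ≤ δ → ‖φ (ψ y) - y * φ (ψ (e * e))‖ ≤ δ →
  ‖φ (ψ (x * y)) - x * y * φ (ψ (e * e))‖ ≤ δ → ‖φ (ψ (x * y)) - φ (ψ (e * e)) * (x * y)‖ ≤ δ →
  ‖φ 1‖ ^ 4 * ‖ψ x * ψ y - ψ (e * e) * ψ (x * y)‖ ≤ δ * (‖x‖ + ‖y‖ + 1) ∧
  ‖φ 1‖ ^ 4 * ‖ψ x * ψ y - ψ (x * y) * ψ (e * e)‖ ≤ δ * (‖x‖ + ‖y‖ + 1)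

def S_AU : Prop := ∀ (B : Type) [CStarAlgebra B] (I : Submodule ℂ B), Idl I →
  ∀ (F : Finset B) (ε : ℝ), (∀ a ∈ F, a ∈ I) → 0 < ε →
  ∃ e ∈ I, Pos e ∧ Pos (1 - e) ∧ ∀ a ∈ F, ‖e * a - a‖ ≤ ε ∧ ‖a * e - a‖ ≤ ε

/-- `S` is a single block or a colour class -/
def SC {m k : ℕ} (c : Fin k → Fin (m + 1)) (S : Finset (Fin k)) : Prop :=
  (∃ j, S = {j}) ∨ ∃ i, S = Finset.univ.filter fun j => c j = i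

/-- good approximations -/
structure APX {B : Type} [CStarAlgebra B] (I : Submodule ℂ B) (m : ℕ) (F : Finset B) (ε : ℝ)
    (e : B) (k : ℕ) (n : Fin k → ℕ) (c : Fin k → Fin (m + 1)) (ψ : ∀ j, B →ₗ[ℂ] M (n j))
    (φ : ∀ j, M (n j) →ₗ[ℂ] B) : Prop where
  fam : Fam I m k n c ψ φ
  eI : e ∈ I
  epos : Pos e
  ele : Pos (1 - e)
  eF : ∀ a ∈ F, ‖e * a - a‖ ≤ ε ∧ ‖a * e - a‖ ≤ ε
  app : ∀ a ∈ F, ‖tot ψ φ Finset.univ a - a‖ ≤ ε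
  appe : ‖tot ψ φ Finset.univ (e * e) - e * e‖ ≤ ε
  comm : ∀ S, SC c S → ∀ x ∈ F, ‖tot ψ φ S x - tot ψ φ S (e * e) * x‖ ≤ ε ∧
    ‖tot ψ φ S x - x * tot ψ φ S (e * e)‖ ≤ ε
  aoz : ∀ j, ∀ x ∈ F, ∀ y ∈ F, x * y ∈ F →
    ‖φ j 1‖ ^ 4 * ‖ψ j x * ψ j y - ψ j (e * e) * ψ j (x * y)‖ ≤ ε ∧
    ‖φ j 1‖ ^ 4 * ‖ψ j x * ψ j y - ψ j (x * y) * ψ j (e * e)‖ ≤ ε
  ple : ∀ x, Pos x → Pos (1 - x) → x ∈ F →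
    ∀ j, Pos (ψ j (e * e) + (ε : ℂ) • 1 - ψ j x)

def S_APX : Prop := ∀ (B : Type) [CStarAlgebra B] (I : Submodule ℂ B) (m : ℕ), Idl I →
  NucI m I → ∀ (F : Finset B) (ε : ℝ), (∀ a ∈ F, a ∈ I) → 0 < ε →
  ∃ (e : B) (k : ℕ) (n : Fin k → ℕ) (c : Fin k → Fin (m + 1)) (ψ : ∀ j, B →ₗ[ℂ] M (n j))
    (φ : ∀ j, M (n j) →ₗ[ℂ] B), APX I m F ε e k n c ψ φ

/-! ### matrices -/

def S_MAT : Prop := ∀ (n : ℕ) (T : M n) (γ : ℝ), 0 < γ → Pos T → ∃ p : M n, star p = p ∧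
  p * p = p ∧ p * T = T * p ∧ ‖T * (1 - p)‖ ≤ γ ∧ Pos (T - (γ : ℂ) • p) ∧
  ((∀ x, ∃ c : ℂ, p * x * p = c • p) ∨ ∃ x z y : Fin 3 → M n,
    (∀ t, ‖x t‖ ≤ 1 ∧ ‖z t‖ ≤ 1 ∧ ‖y t‖ ≤ 1 ∧ z t * z t = 0 ∧ p * z t = z t ∧ z t * p = z t ∧
      p * x t = x t ∧ x t * p = x t ∧ p * y t = y t ∧ y t * p = y t) ∧
    ∑ t, x t * z t * y t = p)

def S_RK : Prop := ∀ (N : ℕ) (C κ : ℝ), 0 < κ → ∃ δ : ℝ, 0 < δ ∧ ∀ κ' : ℝ, 0 < κ' →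
  ∃ γ : ℝ, 0 < γ ∧ ∀ (n : ℕ) (k T U p : M n) (β : Fin N → Fin 4 → M n) (A : Fin N → Bool → M n),
  Pos k → ‖k‖ ≤ 1 → Pos T → ‖T‖ ≤ 1 → Pos U → ‖U‖ ≤ 1 → Pos (T - (κ' : ℂ) • U) →
  Pos (k + (δ : ℂ) • 1 - T) → star p = p → p * p = p → p * T = T * p → ‖T * (1 - p)‖ ≤ γ →
  (∀ x, ∃ c : ℂ, p * x * p = c • p) →
  (∀ t i, ‖β t i‖ ≤ C ∧ ‖U * β t i - k * β t i‖ ≤ δ ∧ ‖β t i * U - β t i * k‖ ≤ δ ∧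
    ‖k * β t i - β t i * k‖ ≤ δ) →
  (∀ t, ‖β t 0 * β t 1 * β t 2 * β t 3 - k ^ 3 * A t false‖ ≤ δ ∧
    ‖β t 0 * β t 2 * β t 1 * β t 3 - k ^ 3 * A t true‖ ≤ δ) →
  ‖T - ∑ t, (A t false - A t true)‖ ≤ κ → ‖T‖ ^ 9 ≤ 2 * κ

/-! ### sums of products with square zero elements -/

/-- commutator certificate for `a` -/
def S_CERT : Prop := ∀ (B : Type) [CStarAlgebra B] (I : Submodule ℂ B), Idl I → NSI I →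
  ∀ a ∈ I, Pos a → ‖a‖ ≤ 1 → ∀ κ : ℝ, 0 < κ → ∃ (N : ℕ) (b : Fin N → Fin 4 → B),
  ‖a - ∑ t, (a * b t 0 * a) * ((a * b t 1 * a) * (a * b t 2 * a) -
    (a * b t 2 * a) * (a * b t 1 * a)) * (a * b t 3 * a)‖ ≤ κ

/-- `n` triples for `a` -/
structure TRI {B : Type} [CStarAlgebra B] (n : ℕ) (ε : ℝ) (a : B) (x z y : Fin n → B) : Prop where
  nx : ∀ s, ‖x s‖ ≤ 1
  nz : ∀ s, ‖z s‖ ≤ 1
  ny : ∀ s, ‖y s‖ ≤ 1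
  sq : ∀ s, ‖z s * z s‖ ≤ ε
  fx : ∀ s, ∃ b, x s = a * b * a
  fz : ∀ s, ∃ b, z s = a * b * a
  fy : ∀ s, ∃ b, y s = a * b * a

/-- every positive contraction of `I` is approximated by `n` triples -/
def UW {B : Type} [CStarAlgebra B] (n : ℕ) (I : Submodule ℂ B) : Prop :=
  ∀ a ∈ I, Pos a → ‖a‖ ≤ 1 → ∀ ε : ℝ, 0 < ε → ∃ x z y : Fin n → B,
    TRI n ε a x z y ∧ ‖a - ∑ s, x s * z s * y s‖ ≤ ε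

def S_UWD : Prop := ∀ (B : Type) [CStarAlgebra B] (I : Submodule ℂ B) (m : ℕ), Idl I →
  NucI m I → NSI I → UW (3 * (m + 1)) I

/-- as `UW`, with triples almost commuting with `a` -/
def LOC {B : Type} [CStarAlgebra B] (n : ℕ) (I : Submodule ℂ B) : Prop :=
  ∀ a ∈ I, Pos a → ‖a‖ ≤ 1 → ∀ ε : ℝ, 0 < ε → ∃ x z y : Fin n → B,
    TRI n ε a x z y ∧ ‖a - (∑ s, x s * z s * y s) * a‖ ≤ ε ∧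
    ∀ s, ‖a * x s - x s * a‖ ≤ ε ∧ ‖a * z s - z s * a‖ ≤ ε ∧ ‖a * y s - y s * a‖ ≤ ε

def S_LOC : Prop := ∀ (B : Type) [CStarAlgebra B] (I : Submodule ℂ B) (n : ℕ), Idl I →
  UW n I → LOC (2 * n) I

/-! ### amplification -/

/-- `∑_k φ(e_k0) b φ(e_0k)` -/
def W {B : Type} [CStarAlgebra B] {n : ℕ} (φ : M n →ₗ[ℂ] B) (b : B) : B :=
  ∑ k, φ (mu k 0) * b * φ (mu 0 k)

def S_AMP : Prop := ∀ (n : ℕ) (B : Type) [CStarAlgebra B] (φ : M n →ₗ[ℂ] B), OZ φ →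
  (∀ b, ‖W φ b‖ ≤ ‖φ (mu 0 0) * b * φ (mu 0 0)‖) ∧
  (∀ b b', W φ b * W φ b' = W φ (b * (φ (mu 0 0) * φ (mu 0 0)) * b')) ∧
  (∀ b, star (W φ b) = W φ (star b)) ∧
  (∀ b X, ‖W φ b * φ X - φ X * W φ b‖ ≤ ‖X‖ * ‖φ (mu 0 0) * (φ (mu 0 0) * b * φ (mu 0 0)) -
    (φ (mu 0 0) * b * φ (mu 0 0)) * φ (mu 0 0)‖) ∧
  (∀ b, ‖(1 - W φ b) * φ 1 ^ 3‖ ≤ ‖(1 - φ (mu 0 0) * b * φ (mu 0 0)) * φ (mu 0 0) ^ 3‖)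

def S_CLS : Prop := ∀ (k : ℕ) (n : Fin k → ℕ) (B : Type) [CStarAlgebra B]
  (φ : ∀ j, M (n j) →ₗ[ℂ] B) (S : Finset (Fin k)), (∀ j ∈ S, OZ (φ j)) →
  (∀ j ∈ S, ∀ j' ∈ S, j ≠ j' → ∀ x y, φ j x * φ j' y = 0) →
  ∀ (K : ℕ) (ε : ℝ) (x z y : Fin k → Fin K → B), 0 < ε →
  (∀ j ∈ S, TRI K ε (φ j (mu 0 0)) (x j) (z j) (y j) ∧
    ‖φ j (mu 0 0) - (∑ s, x j s * z j s * y j s) * φ j (mu 0 0)‖ ≤ ε ∧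
    ∀ s, ‖φ j (mu 0 0) * x j s - x j s * φ j (mu 0 0)‖ ≤ ε ∧
      ‖φ j (mu 0 0) * z j s - z j s * φ j (mu 0 0)‖ ≤ ε ∧
      ‖φ j (mu 0 0) * y j s - y j s * φ j (mu 0 0)‖ ≤ ε) →
  ∃ X Z Y : Fin K → B, (∀ s, ‖X s‖ ≤ 1 ∧ ‖Z s‖ ≤ 1 ∧ ‖Y s‖ ≤ 1 ∧ ‖Z s * Z s‖ ≤ ε) ∧
    (∀ (C : ℝ) (r : ∀ j, M (n j)), (∀ j ∈ S, ‖r j‖ ≤ C) → 0 ≤ C → ∀ s,
      ‖X s * (∑ j ∈ S, φ j (r j)) - (∑ j ∈ S, φ j (r j)) * X s‖ ≤ C * ε ∧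
      ‖Z s * (∑ j ∈ S, φ j (r j)) - (∑ j ∈ S, φ j (r j)) * Z s‖ ≤ C * ε ∧
      ‖Y s * (∑ j ∈ S, φ j (r j)) - (∑ j ∈ S, φ j (r j)) * Y s‖ ≤ C * ε) ∧
    ∀ r : ∀ j, M (n j), (∀ j ∈ S, ‖r j‖ ≤ 1) →
      ‖(1 - ∑ s, X s * Z s * Y s) * (∑ j ∈ S, φ j (r j)) ^ 3‖ ≤ ε

/-! ### no characters -/

/-- almost central decomposition of the unit, `F ⊆ I` finite -/
structure FLx {B : Type} [CStarAlgebra B] (I : Submodule ℂ B) (m K : ℕ) (F : Finset B) (ε : ℝ)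
    (H : Fin (m + 1) → B) (X Z Y : Fin (m + 1) → Fin K → B) : Prop where
  mH : ∀ i, H i ∈ I
  mX : ∀ i s, X i s ∈ I
  mZ : ∀ i s, Z i s ∈ I
  mY : ∀ i s, Y i s ∈ I
  nH : ∀ i, ‖H i‖ ≤ 1
  nX : ∀ i s, ‖X i s‖ ≤ 1
  nZ : ∀ i s, ‖Z i s‖ ≤ 1
  nY : ∀ i s, ‖Y i s‖ ≤ 1
  cH : ∀ i, ∀ a ∈ F, ‖H i * a - a * H i‖ ≤ ε
  cX : ∀ i s, ∀ a ∈ F, ‖X i s * a - a * X i s‖ ≤ ε
  cZ : ∀ i s, ∀ a ∈ F, ‖Z i s * a - a * Z i s‖ ≤ ε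
  cY : ∀ i s, ∀ a ∈ F, ‖Y i s * a - a * Y i s‖ ≤ ε
  sq : ∀ i s, ‖Z i s * Z i s‖ ≤ ε
  cu : ∀ i, ‖H i ^ 3 - ∑ s, X i s * Z i s * Y i s‖ ≤ ε
  one : ∀ a ∈ F, ‖(∑ i, H i) * a - a‖ ≤ ε

def FL {B : Type} [CStarAlgebra B] (m K : ℕ) (I : Submodule ℂ B) : Prop :=
  ∀ (F : Finset B) (ε : ℝ), (∀ a ∈ F, a ∈ I) → 0 < ε →
  ∃ (H : Fin (m + 1) → B) (X Z Y : Fin (m + 1) → Fin K → B), FLx I m K F ε H X Z Y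

def S_FL : Prop := ∀ (B : Type) [CStarAlgebra B] (I : Submodule ℂ B) (m : ℕ), Idl I →
  NucI m I → NSI I → FL m (2 * (3 * (m + 1))) I

/-! ### the central sequence algebra `F(I)` -/

/-- the commutant of (the constant sequences of) `I` in `Q = B_ω` -/
def CenI {B Q : Type} [CStarAlgebra B] [CStarAlgebra Q] (q : (ℕ →ᵇ B) →⋆ₐ[ℂ] Q)
    (I : Submodule ℂ B) : StarSubalgebra ℂ Q :=
  StarSubalgebra.centralizer ℂ ((fun a : B => q (cst a)) '' (I : Set B))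

/-- `ρ : CenI q I → E` is the quotient by the annihilator of `I`, i.e. `E = F(I)` -/
structure KirI {B Q : Type} [CStarAlgebra B] [CStarAlgebra Q] (q : (ℕ →ᵇ B) →⋆ₐ[ℂ] Q)
    (I : Submodule ℂ B) {E : Type} [CStarAlgebra E] (ρ : CenI q I →⋆ₐ[ℂ] E) : Prop where
  surj : Function.Surjective ρ
  ker : ∀ x : CenI q I, ρ x = 0 ↔ ∀ a ∈ I, (x : Q) * q (cst a) = 0

def S_QI : Prop := ∀ (B Q : Type) [CStarAlgebra B] [CStarAlgebra Q] (q : (ℕ →ᵇ B) →⋆ₐ[ℂ] Q)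
  (I : Submodule ℂ B), Idl I → ∃ (E : Type) (_ : CStarAlgebra E) (ρ : CenI q I →⋆ₐ[ℂ] E),
  KirI q I ρ

def S_NOCH : Prop := ∀ (B Q : Type) [CStarAlgebra B] [CStarAlgebra Q]
  [TopologicalSpace.SeparableSpace B] (ω : Ultrafilter ℕ) (q : (ℕ →ᵇ B) →⋆ₐ[ℂ] Q),
  IsUP B Q ω q → (ω : Filter ℕ) ≤ atTop → ∀ (I : Submodule ℂ B) (m K : ℕ), Idl I → FL m K I →
  ∀ (E : Type) [CStarAlgebra E] (ρ : CenI q I →⋆ₐ[ℂ] E), KirI q I ρ → ∀ _ : E →⋆ₐ[ℂ] ℂ, False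

def S_F1G : Prop := ∀ (E : Type) [CStarAlgebra E], (∀ _ : E →⋆ₐ[ℂ] ℂ, False) →
  ∃ (n : ℕ) (V : Fin 4 × Fin n → E), Com V

def S_F2I : Prop := ∀ (B Q : Type) [CStarAlgebra B] [CStarAlgebra Q]
  [TopologicalSpace.SeparableSpace B] (ω : Ultrafilter ℕ) (q : (ℕ →ᵇ B) →⋆ₐ[ℂ] Q),
  IsUP B Q ω q → (ω : Filter ℕ) ≤ atTop → ∀ (I : Submodule ℂ B), Idl I →
  ∀ (E : Type) [CStarAlgebra E] (ρ : CenI q I →⋆ₐ[ℂ] E), KirI q I ρ →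
  ∀ (n : ℕ) (V : Fin 4 × Fin n → E), Com V →
  ∃ T : ℕ → Fin 4 × Fin n → E, CS T ∧ (∃ C : ℝ, ∀ j g, ‖T j g‖ ≤ C) ∧ ∀ j, Com (T j)

/-- local form of `𝒵`-stability of `I` -/
def LocZ {B : Type} [CStarAlgebra B] (I : Submodule ℂ B) : Prop :=
  ∀ (N : ℕ) (F : Finset B) (ε : ℝ), (∀ a ∈ F, a ∈ I) → 0 < ε →
  ∃ (c : Fin (N + 1) → B) (s : B), (∀ i, c i ∈ I) ∧ s ∈ I ∧ (∀ i, ‖c i‖ ≤ 1) ∧ ‖s‖ ≤ 1 ∧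
    (∃ d ∈ I, c 0 = star d * d) ∧ ∀ a ∈ F,
    (∀ i, ‖c i * a - a * c i‖ ≤ ε) ∧ ‖s * a - a * s‖ ≤ ε ∧
    (∀ i, ‖(c i * star (c i) - c 0 * c 0) * a‖ ≤ ε) ∧
    (∀ i j, i ≠ j → ‖c i * star (c j) * a‖ ≤ ε) ∧
    ‖(star s * s + ∑ i, star (c i) * c i) * a - a‖ ≤ ε ∧ ‖(c 0 * s - s) * a‖ ≤ ε

def S_FINI : Prop := ∀ (B Q : Type) [CStarAlgebra B] [CStarAlgebra Q]
  [TopologicalSpace.SeparableSpace B] (ω : Ultrafilter ℕ) (q : (ℕ →ᵇ B) →⋆ₐ[ℂ] Q),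
  IsUP B Q ω q → (ω : Filter ℕ) ≤ atTop → ∀ (I : Submodule ℂ B), Idl I →
  ∀ (E : Type) [CStarAlgebra E] (ρ : CenI q I →⋆ₐ[ℂ] E), KirI q I ρ →
  (∀ N : ℕ, ∃ (c : Fin (N + 1) → E) (s : E), RW 0 c s) → LocZ I

/-- local `𝒵`-stability implies the global Glimm halving property -/
def S_GGH : Prop := ∀ (B : Type) [CStarAlgebra B] (I : Submodule ℂ B), Idl I → LocZ I →
  ∀ a ∈ I, Pos a → ∀ ε : ℝ, 0 < ε → ∃ x : B, x ∈ closure {y : B | ∃ b, y = a * b * a} ∧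
    x * x = 0 ∧ cfc (fun t : ℝ => max (t - ε) 0) a ∈
      closure {y : B | ∃ (k : ℕ) (u v : Fin k → B), y = ∑ i, u i * x * v i}

end Pool.Agent.N299.ND
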