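import Pool.Agent.N299.ND.Asm
import Pool.Agent.N545.ND.OZL
import Pool.Agent.N558.ND.OZS
import Pool.Agent.N403.ND.DL
import Pool.Agent.N866.ND.NB
import Pool.Agent.N866.ND.CPC
import Pool.Agent.N591.ND.TI
import Pool.Agent.N157.ND.AOZ
import Pool.Agent.N340.ND.AU
import Pool.Agent.N697.ND.MAT
import Pool.Agent.N618.ND.RK
import Pool.Agent.N787.ND.CERT
import Pool.Agent.N273.ND.LOC
import Pool.Agent.N348.ND.UWD
import Pool.Agent.N901.ND.APX
import Pool.Agent.N400.ND.AMP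
import Pool.Agent.N565.ND.CLS
import Pool.Agent.N713.ND.FL
import Pool.Agent.N572.ND.QI
import Pool.Agent.N572.ND.F1G
import Pool.Agent.N316.ND.NOCH
import Pool.Agent.N296.ND.F2I
import Pool.Agent.N570.ND.FINI
import Pool.Agent.N394.ND.BRN
import Pool.Agent.N607.ND.BRS
import Pool.Agent.N438.ND.BRL
import Pool.Agent.N438.ND.BRI
import Pool.Agent.N768.ND.GGH
import Pool.Agent.N291.ND.BRG

/-!
Project ND: everything plugged together.
-/

set_option autoImplicit false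

open scoped BoundedContinuousFunction Topology
open Filter

noncomputable section

namespace Pool.Agent.N299.ND

open Pool.Agent.N299.ND.Pub
open Pool.Agent.N299.DT.Pub (RordamWinter IsJiangSuAlgebra HasInnerHalfFlip Absorbs)

theorem all_APX : S_APX :=
  Pool.Agent.N901.ND.t_APX Pool.Agent.N545.ND.t_OZL Pool.Agent.N558.ND.t_OZS
    Pool.Agent.N866.ND.t_NB Pool.Agent.N866.ND.t_CPC Pool.Agent.N591.ND.t_TI
    Pool.Agent.N340.ND.t_AU (Pool.Agent.N157.ND.t_AOZ Pool.Agent.N866.ND.t_NB)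

theorem all_UWD : S_UWD :=
  Pool.Agent.N348.ND.t_UWD all_APX Pool.Agent.N545.ND.t_OZL Pool.Agent.N558.ND.t_OZS
    Pool.Agent.N403.ND.t_DL Pool.Agent.N697.ND.t_MAT Pool.Agent.N618.ND.t_RK
    Pool.Agent.N787.ND.t_CERT

theorem all_FL : S_FL :=
  Pool.Agent.N713.ND.t_FL all_APX Pool.Agent.N545.ND.t_OZL all_UWD Pool.Agent.N273.ND.t_LOC
    (Pool.Agent.N565.ND.t_CLS Pool.Agent.N400.ND.t_AMP Pool.Agent.N403.ND.t_DL)

theorem all_nonunital :
    ∀ (m : ℕ) (A : Type) [NonUnitalCStarAlgebra A] [TopologicalSpace.SeparableSpace A],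
      NuclearDimLE m A → NowhereScattered A → LocalZStable A ∧ GlobalGlimm A :=
  nd_final all_FL Pool.Agent.N572.ND.t_QI Pool.Agent.N316.ND.t_NOCH Pool.Agent.N572.ND.t_F1G
    (Pool.Agent.N296.ND.t_F2I Pool.Agent.N340.ND.t_AU) (Pool.Agent.N570.ND.t_FINI Pool.Agent.N340.ND.t_AU)
    (Pool.Agent.N394.ND.t_BRN Pool.Agent.N340.ND.t_AU) Pool.Agent.N607.ND.t_BRS
    Pool.Agent.N438.ND.t_BRL Pool.Agent.N438.ND.t_BRI Pool.Agent.N768.ND.GGH.t_GGH
    Pool.Agent.N291.ND.BRG.t_BRG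

theorem all_unital :
    ∀ (m : ℕ) (A : Type) [CStarAlgebra A] [TopologicalSpace.SeparableSpace A],
      NuclearDimLE m A → NowhereScattered A →
      RordamWinter A ∧ ∀ (Z : Type) [CStarAlgebra Z], IsJiangSuAlgebra Z → HasInnerHalfFlip Z →
        Absorbs A Z :=
  nd_final_unital all_FL Pool.Agent.N572.ND.t_QI Pool.Agent.N316.ND.t_NOCH
    (Pool.Agent.N394.ND.t_BRN Pool.Agent.N340.ND.t_AU) Pool.Agent.N607.ND.t_BRS

end Pool.Agent.N299.ND
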