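import Pool.Agent.N299.ND.Stm2
import Pool.Agent.N299.DT.PubB

/-!
Project ND: assembly.
-/

set_option autoImplicit false

open scoped BoundedContinuousFunction Topology Matrix.Norms.L2Operator
open Filter

noncomputable section

namespace Pool.Agent.N299.ND

open Pool.Agent.N299 Pool.Agent.N299.DT Pool.Agent.N299.ND.Pub
open Pool.Agent.N299.DT.Pub (RordamWinter IsJiangSuAlgebra HasInnerHalfFlip Absorbs pub_KR pub_UPX
  IsUltrapower CentralSeq)

/-- relations in `F(I)` from the absence of characters -/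
theorem kir_rw (hF1G : S_F1G) (hF2I : S_F2I) (B Q : Type) [CStarAlgebra B] [CStarAlgebra Q]
    [TopologicalSpace.SeparableSpace B] (ω : Ultrafilter ℕ) (q : (ℕ →ᵇ B) →⋆ₐ[ℂ] Q)
    (hq : IsUP B Q ω q) (hω : (ω : Filter ℕ) ≤ atTop) (I : Submodule ℂ B) (hI : Idl I)
    (E : Type) [CStarAlgebra E] (ρ : CenI q I →⋆ₐ[ℂ] E) (hρ : KirI q I ρ)
    (hχ : ∀ _ : E →⋆ₐ[ℂ] ℂ, False) (N : ℕ) : ∃ (c : Fin (N + 1) → E) (s : E), RW 0 c s := by
  by_cases h1 : (1 : E) = 0
  · exact ⟨fun _ => 0, 0, rw_trivial0 h1 N⟩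
  obtain ⟨n, V, hV⟩ := hF1G E hχ
  obtain ⟨T, hT, hTb, hTc⟩ := hF2I B Q ω q hq hω I hI E ρ hρ n V hV
  obtain ⟨n', W, hW, -, hWz, -⟩ := all_CORE all_NS all_ZA n E h1 T hT hTb hTc
  have hn' : 0 < n' := by
    rcases Nat.eq_zero_or_pos n' with h | h
    · exfalso
      subst h
      have := (hWz 0).full
      simp only [Finset.univ_eq_empty, Finset.sum_empty] at this
      exact h1 this.symm
    · exact h
  obtain ⟨R, hR⟩ := all_PBX n' N hn'
  obtain ⟨c, s, hrw, -⟩ := hR E (fun j => W j) (fun j => hWz j)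
    (fun j k hjk => hW _ _ fun hh => hjk (Fin.ext hh))
  exact ⟨c, s, hrw⟩

/-- main theorem for ideals -/
theorem nd_locz (hFL : S_FL) (hQI : S_QI) (hNOCH : S_NOCH) (hF1G : S_F1G) (hF2I : S_F2I)
    (hFINI : S_FINI) (B : Type) [CStarAlgebra B] [TopologicalSpace.SeparableSpace B]
    (I : Submodule ℂ B) (hI : Idl I) (m : ℕ) (hm : NucI m I) (hs : NSI I) : LocZ I := by
  obtain ⟨Q, iQ, q, hq⟩ := Pool.Agent.N704.DT.t_UPX B (hyperfilter ℕ)
  obtain ⟨E, iE, ρ, hρ⟩ := hQI B Q q I hI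
  have hχ := hNOCH B Q (hyperfilter ℕ) q hq hyper_le I m _ hI (hFL B I m hI hm hs) E ρ hρ
  exact hFINI B Q (hyperfilter ℕ) q hq hyper_le I hI E ρ hρ
    (kir_rw hF1G hF2I B Q (hyperfilter ℕ) q hq hyper_le I hI E ρ hρ hχ)

lemma top_idl {B : Type} [CStarAlgebra B] : Idl (⊤ : Submodule ℂ B) :=
  ⟨isClosed_univ, fun _ _ _ => trivial, fun _ _ _ => trivial, fun _ _ => trivial⟩

/-- no characters on the central sequence algebra in the unital case -/
theorem nd_unital (hFL : S_FL) (hQI : S_QI) (hNOCH : S_NOCH)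
    (B : Type) [CStarAlgebra B] [TopologicalSpace.SeparableSpace B]
    (m : ℕ) (hm : NucI m (⊤ : Submodule ℂ B)) (hs : NSI (⊤ : Submodule ℂ B))
    (Q : Type) [CStarAlgebra Q] (ω : Ultrafilter ℕ) (q : (ℕ →ᵇ B) →⋆ₐ[ℂ] Q) (hq : IsUP B Q ω q)
    (hω : (ω : Filter ℕ) ≤ atTop) : ∀ χ : Cen q →⋆ₙₐ[ℂ] ℂ, χ = 0 := by
  intro χ
  by_contra hne
  obtain ⟨E, iE, ρ, hρ⟩ := hQI B Q q ⊤ top_idl
  have hF := hNOCH B Q ω q hq hω ⊤ m _ top_idl (hFL B ⊤ m top_idl hm hs) E ρ hρ
  have hinj : Function.Injective ρ := by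
    rw [injective_iff_map_eq_zero]
    intro x hx
    have h := (hρ.ker x).1 hx 1 trivial
    have h1 : q (cst (1 : B)) = 1 := by
      have : cst (1 : B) = 1 := rfl
      rw [this, map_one]
    rw [h1, mul_one] at h
    exact Subtype.ext h
  have hmem : ∀ x : CenI q (⊤ : Submodule ℂ B), (x : Q) ∈ Cen q := by
    intro x
    have hx := x.2
    unfold CenI at hx
    unfold Cen
    rw [StarSubalgebra.mem_centralizer_iff] at hx ⊢
    rintro _ ⟨a, rfl⟩
    exact hx _ ⟨a, trivial, rfl⟩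
  let inc : CenI q (⊤ : Submodule ℂ B) → Cen q := fun x => ⟨x, hmem x⟩
  -- the character is unital
  have hχ1 : χ 1 = 1 := by
    have : ∃ x, χ x ≠ 0 := by
      by_contra hcon
      push Not at hcon
      exact hne (NonUnitalStarAlgHom.ext hcon)
    obtain ⟨x, hx⟩ := this
    have h2 : χ x * χ 1 = χ x := by rw [← map_mul, mul_one]
    exact mul_left_cancel₀ hx (by rw [h2, mul_one])
  let e : E → CenI q (⊤ : Submodule ℂ B) := Function.surjInv hρ.surj
  have he : ∀ y, ρ (e y) = y := Function.surjInv_eq hρ.surj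
  refine hF
    { toFun := fun y => χ (inc (e y))
      map_one' := ?_
      map_mul' := ?_
      map_zero' := ?_
      map_add' := ?_
      commutes' := ?_
      map_star' := ?_ }
  · have : e 1 = 1 := hinj (by rw [he, map_one])
    rw [this]
    exact hχ1
  · intro x y
    have : e (x * y) = e x * e y := hinj (by rw [map_mul, he, he, he])
    rw [this]
    exact map_mul χ (inc (e x)) (inc (e y))
  · have : e 0 = 0 := hinj (by rw [he, map_zero])
    simp only [this]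
    exact map_zero χ
  · intro x y
    have : e (x + y) = e x + e y := hinj (by rw [map_add, he, he, he])
    simp only [this]
    exact map_add χ (inc (e x)) (inc (e y))
  · intro c
    have : e (algebraMap ℂ E c) = c • 1 := hinj (by
      rw [he, map_smul, map_one, Algebra.algebraMap_eq_smul_one])
    simp only [this]
    have h3 : inc (c • 1) = c • (1 : Cen q) := rfl
    rw [h3, map_smul, hχ1]
    simp
  · intro x
    have : e (star x) = star (e x) := hinj (by rw [map_star, he, he])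
    simp only [this]
    exact map_star χ (inc (e x))

theorem nd_final (hFL : S_FL) (hQI : S_QI) (hNOCH : S_NOCH) (hF1G : S_F1G) (hF2I : S_F2I)
    (hFINI : S_FINI) (hBRN : S_BRN) (hBRS : S_BRS) (hBRL : S_BRL) (hBRI : S_BRI)
    (hGGH : S_GGH) (hBRG : S_BRG) :
    ∀ (m : ℕ) (A : Type) [NonUnitalCStarAlgebra A] [TopologicalSpace.SeparableSpace A],
      NuclearDimLE m A → NowhereScattered A → LocalZStable A ∧ GlobalGlimm A := by
  intro m A _ _ hm hs
  obtain ⟨B, iB, sB, ι, I, h⟩ := hBRI A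
  have hL := nd_locz hFL hQI hNOCH hF1G hF2I hFINI B I h.idl m (hBRN A B ι I h m hm)
    (hBRS A B ι I h hs)
  exact ⟨hBRL A B ι I h hL, hBRG A B ι I h (hGGH B I h.idl hL)⟩

lemma inc_id (A : Type) [CStarAlgebra A] :
    Inc (NonUnitalStarAlgHom.id ℂ A) (⊤ : Submodule ℂ A) :=
  ⟨fun _ _ h => h, top_idl, fun x => ⟨fun _ => ⟨x, rfl⟩, fun _ => trivial⟩⟩

theorem nd_final_unital (hFL : S_FL) (hQI : S_QI) (hNOCH : S_NOCH) (hBRN : S_BRN)
    (hBRS : S_BRS) :
    ∀ (m : ℕ) (A : Type) [CStarAlgebra A] [TopologicalSpace.SeparableSpace A],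
      NuclearDimLE m A → NowhereScattered A →
      RordamWinter A ∧ ∀ (Z : Type) [CStarAlgebra Z], IsJiangSuAlgebra Z → HasInnerHalfFlip Z →
        Absorbs A Z := by
  intro m A _ _ hm hs
  obtain ⟨Q, iQ, q, hq⟩ := Pool.Agent.N704.DT.t_UPX A (hyperfilter ℕ)
  have hχ := nd_unital hFL hQI hNOCH A m (hBRN A A _ ⊤ (inc_id A) m hm)
    (hBRS A A _ ⊤ (inc_id A) hs) Q (hyperfilter ℕ) q hq hyper_le
  have h := pub_KR A (hyperfilter ℕ) hyperfilter_le_cofinite Q q
    ((Pool.Agent.N299.DT.Pub.isUP_iff _ q).2 hq) hχ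
  exact ⟨h.1, fun Z _ hZ hf => (h.2 Z hZ).2 hf⟩

end Pool.Agent.N299.ND
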