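import Mathlib

/-!
# Nuclear dimension, nowhere scattered C*-algebras, local `𝒵`-stability: public definitions
-/

set_option autoImplicit false

open scoped Topology Matrix.Norms.L2Operator

noncomputable section

namespace Pool.Agent.N299.ND.Pub

/-- matrices of size `n + 1`, with the operator norm -/
abbrev Mat (n : ℕ) : Type := Matrix (Fin (n + 1)) (Fin (n + 1)) ℂ

/-- `T` is completely positive: `∑_{i,j} b_i* T(a_i* a_j) b_j ≥ 0` for all tuples `a`, `b` -/
def IsCP {A R : Type} [NonUnitalCStarAlgebra A] [NonUnitalCStarAlgebra R] (T : A →ₗ[ℂ] R) : Prop :=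
  ∀ (r : ℕ) (a : Fin r → A) (b : Fin r → R), ∃ c : R,
    ∑ i, ∑ j, star (b i) * T (star (a i) * a j) * b j = star c * c

/-- completely positive contractive maps -/
structure IsCPC {A R : Type} [NonUnitalCStarAlgebra A] [NonUnitalCStarAlgebra R]
    (T : A →ₗ[ℂ] R) : Prop where
  cp : IsCP T
  contr : ∀ a, ‖T a‖ ≤ ‖a‖

/-- order zero maps: orthogonal positive elements are mapped to orthogonal elements -/
def IsOrderZero {A R : Type} [NonUnitalCStarAlgebra A] [NonUnitalCStarAlgebra R]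
    (T : A →ₗ[ℂ] R) : Prop :=
  ∀ x y : A, (star x * x) * (star y * y) = 0 → T (star x * x) * T (star y * y) = 0

/-- nuclear dimension at most `m` (Winter–Zacharias): the identity is approximated on finite sets by
`∑_j φ_j ψ_j` with completely positive contractive maps `ψ_j : A → M_{n_j+1}` and completely
positive contractive order zero maps `φ_j : M_{n_j+1} → A`, where the `φ_j` are coloured with
`m + 1` colours so that maps of the same colour have orthogonal ranges -/
def NuclearDimLE (m : ℕ) (A : Type) [NonUnitalCStarAlgebra A] : Prop :=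
  ∀ (F : Finset A) (ε : ℝ), 0 < ε → ∃ (k : ℕ) (n : Fin k → ℕ) (c : Fin k → Fin (m + 1))
    (ψ : ∀ j, A →ₗ[ℂ] Mat (n j)) (φ : ∀ j, Mat (n j) →ₗ[ℂ] A),
    (∀ j, IsCPC (ψ j)) ∧ (∀ j, IsCPC (φ j)) ∧ (∀ j, IsOrderZero (φ j)) ∧
    (∀ j j', j ≠ j' → c j = c j' → ∀ x y, φ j x * φ j' y = 0) ∧
    ∀ a ∈ F, ‖∑ j, φ j (ψ j a) - a‖ < ε

/-- `A` is nowhere scattered: there are no closed two-sided ideal `L` of `A`, Hilbert space `H ≠ 0`
and *-homomorphism from `L` onto the algebra of compact operators on `H`; that is, no quotient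
`L / J` of closed ideals `J ◁ L ◁ A` is non-zero and elementary -/
def NowhereScattered (A : Type) [NonUnitalCStarAlgebra A] : Prop :=
  ∀ L : NonUnitalStarSubalgebra ℂ A, IsClosed (L : Set A) →
    (∀ x ∈ L, ∀ y : A, x * y ∈ L ∧ y * x ∈ L) →
    ∀ (H : Type) [NormedAddCommGroup H] [InnerProductSpace ℂ H] [CompleteSpace H] [Nontrivial H]
      (π : L →⋆ₙₐ[ℂ] (H →L[ℂ] H)), ¬ ∀ T : H →L[ℂ] H, (∃ x, π x = T) ↔ IsCompactOperator T

/-- local form of `𝒵`-stability (Rørdam–Winter criterion, not necessarily unital case): for all `N`,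
finite sets `F` and `ε > 0` there are contractions `c 0 ≥ 0, c 1, …, c N, s` which commute, up to
`ε`, with `F` and which satisfy, up to `ε` and after multiplication by elements of `F`, the
relations of the dimension drop algebra `Z_{N+1,N+2}` -/
def LocalZStable (A : Type) [NonUnitalCStarAlgebra A] : Prop :=
  ∀ (N : ℕ) (F : Finset A) (ε : ℝ), 0 < ε → ∃ (c : Fin (N + 1) → A) (s : A),
    (∀ i, ‖c i‖ ≤ 1) ∧ ‖s‖ ≤ 1 ∧ (∃ d : A, c 0 = star d * d) ∧ ∀ a ∈ F,
    (∀ i, ‖c i * a - a * c i‖ ≤ ε) ∧ ‖s * a - a * s‖ ≤ ε ∧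
    (∀ i, ‖(c i * star (c i) - c 0 * c 0) * a‖ ≤ ε) ∧
    (∀ i j, i ≠ j → ‖c i * star (c j) * a‖ ≤ ε) ∧
    ‖(star s * s + ∑ i, star (c i) * c i) * a - a‖ ≤ ε ∧ ‖(c 0 * s - s) * a‖ ≤ ε

/-- the closed two-sided ideal generated by `x` -/
def idealGen {A : Type} [NonUnitalCStarAlgebra A] (x : A) : Set A :=
  closure {y : A | ∃ (k : ℕ) (u v : Fin k → A), y = ∑ i, u i * x * v i}

/-- global Glimm halving property: for all `a ≥ 0`, `ε > 0` there is a square zero element `x` of
the hereditary subalgebra generated by `a` such that `(a - ε)_+` is in the ideal generated by `x` -/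
def GlobalGlimm (A : Type) [NonUnitalCStarAlgebra A] : Prop :=
  ∀ a : A, (∃ d, a = star d * d) → ∀ ε : ℝ, 0 < ε → ∃ x : A,
    x ∈ closure {y : A | ∃ b, y = a * b * a} ∧ x * x = 0 ∧
    cfcₙ (fun t : ℝ => max (t - ε) 0) a ∈ idealGen x

end Pool.Agent.N299.ND.Pub
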