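import Pool.Agent.N299.ND.Stm
import Pool.Agent.N299.ND.Pub

/-!
Project ND: statements of the bridge from the public definitions to the ideal setting.
-/

set_option autoImplicit false

open scoped Topology Matrix.Norms.L2Operator

noncomputable section

namespace Pool.Agent.N299.ND

open Pool.Agent.N299.ND.Pub

/-- `ι` identifies `A` with the ideal `I` of `B` -/
structure Inc {A B : Type} [NonUnitalCStarAlgebra A] [CStarAlgebra B] (ι : A →⋆ₙₐ[ℂ] B)
    (I : Submodule ℂ B) : Prop where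
  inj : Function.Injective ι
  idl : Idl I
  mem : ∀ x, x ∈ I ↔ ∃ a, ι a = x

def S_BRN : Prop := ∀ (A B : Type) [NonUnitalCStarAlgebra A] [CStarAlgebra B]
  (ι : A →⋆ₙₐ[ℂ] B) (I : Submodule ℂ B), Inc ι I → ∀ m, NuclearDimLE m A → NucI m I

def S_BRS : Prop := ∀ (A B : Type) [NonUnitalCStarAlgebra A] [CStarAlgebra B]
  (ι : A →⋆ₙₐ[ℂ] B) (I : Submodule ℂ B), Inc ι I → NowhereScattered A → NSI I

def S_BRL : Prop := ∀ (A B : Type) [NonUnitalCStarAlgebra A] [CStarAlgebra B]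
  (ι : A →⋆ₙₐ[ℂ] B) (I : Submodule ℂ B), Inc ι I → LocZ I → LocalZStable A

def S_BRG : Prop := ∀ (A B : Type) [NonUnitalCStarAlgebra A] [CStarAlgebra B]
  (ι : A →⋆ₙₐ[ℂ] B) (I : Submodule ℂ B), Inc ι I →
  (∀ a ∈ I, Pos a → ∀ ε : ℝ, 0 < ε → ∃ x : B, x ∈ closure {y : B | ∃ b, y = a * b * a} ∧
    x * x = 0 ∧ cfc (fun t : ℝ => max (t - ε) 0) a ∈
      closure {y : B | ∃ (k : ℕ) (u v : Fin k → B), y = ∑ i, u i * x * v i}) → GlobalGlimm A

def S_BRI : Prop := ∀ (A : Type) [NonUnitalCStarAlgebra A] [TopologicalSpace.SeparableSpace A],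
  ∃ (B : Type) (_ : CStarAlgebra B) (_ : TopologicalSpace.SeparableSpace B)
    (ι : A →⋆ₙₐ[ℂ] B) (I : Submodule ℂ B), Inc ι I

end Pool.Agent.N299.ND
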